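import Mathlib

/-!
# The field `K = ℚ(√2, √5)`: coordinates, real embeddings, trace form

Project UQ (helper168): `x² + y² + z² + xy + √2 xz` is universal over `ℚ(√2, √5)` (S18713).
-/

set_option autoImplicit false

namespace Pool.Agent.U168.UQ

lemma not_sq_two (q : ℚ) : q ^ 2 ≠ 2 := by
  intro h
  have h1 : Irrational (√2) := irrational_sqrt_two
  apply h1
  refine ⟨|q|, ?_⟩
  have h2 : ((|q| : ℚ) : ℝ) = |(q : ℝ)| := by push_cast; rfl
  rw [h2, ← Real.sqrt_sq_eq_abs]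
  congr 1
  exact_mod_cast h

lemma not_sq_nat (n : ℕ) (hn : ¬ IsSquare n) (q : ℚ) : q ^ 2 ≠ n := by
  intro h
  apply hn
  have h1 : IsSquare ((n : ℕ) : ℚ) := ⟨q, by rw [← h]; ring⟩
  exact Rat.isSquare_natCast_iff.1 h1

instance fact2 : Fact (∀ q : ℚ, q ^ 2 ≠ 2 + 0 * q) := ⟨fun q => by
  rw [zero_mul, add_zero]; exact not_sq_two q⟩

/-- `ℚ(√2)` -/
abbrev K2 := QuadraticAlgebra ℚ (2 : ℚ) (0 : ℚ)

instance fact5 : Fact (∀ q : K2, q ^ 2 ≠ 1 + 1 * q) := ⟨fun q h => by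
  have h1 := congrArg QuadraticAlgebra.re h
  have h2 := congrArg QuadraticAlgebra.im h
  simp only [sq, one_mul, QuadraticAlgebra.re_mul, QuadraticAlgebra.im_mul, QuadraticAlgebra.re_add,
    QuadraticAlgebra.im_add, QuadraticAlgebra.re_one, QuadraticAlgebra.im_one] at h1 h2
  have h3 : q.im * (2 * q.re - 1) = 0 := by linear_combination h2
  rcases mul_eq_zero.1 h3 with h4 | h4
  · rw [h4] at h1
    refine not_sq_nat 5 (by decide +kernel) (2 * q.re - 1) ?_
    push_cast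
    linear_combination 4 * h1
  · refine not_sq_nat 10 (by decide +kernel) (4 * q.im) ?_
    push_cast
    have h5 : q.re = 1 / 2 := by linarith
    rw [h5] at h1
    linear_combination 8 * h1⟩

/-- `ℚ(√2, √5)`, as `ℚ(√2)(f)` with `f² = 1 + f` -/
abbrev K := QuadraticAlgebra K2 (1 : K2) (1 : K2)

/-- the number `a + b √2 + c f + d √2 f` -/
def mk (a b c d : ℚ) : K := ⟨⟨a, b⟩, ⟨c, d⟩⟩

/-- `√2` -/
def r : K := mk 0 1 0 0

/-- `(1 + √5) / 2` -/
def f : K := mk 0 0 1 0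

lemma mk_eta (x : K) : mk x.re.re x.re.im x.im.re x.im.im = x := rfl

lemma exists_mk (x : K) : ∃ a b c d : ℚ, x = mk a b c d := ⟨_, _, _, _, (mk_eta x).symm⟩

lemma mk_inj {a b c d a' b' c' d' : ℚ} :
    mk a b c d = mk a' b' c' d' ↔ a = a' ∧ b = b' ∧ c = c' ∧ d = d' := by
  unfold mk
  simp only [QuadraticAlgebra.mk.injEq]
  tauto

lemma mk_add (a b c d a' b' c' d' : ℚ) :
    mk a b c d + mk a' b' c' d' = mk (a + a') (b + b') (c + c') (d + d') := rfl

lemma mk_sub (a b c d a' b' c' d' : ℚ) :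
    mk a b c d - mk a' b' c' d' = mk (a - a') (b - b') (c - c') (d - d') := rfl

lemma mk_neg (a b c d : ℚ) : - mk a b c d = mk (-a) (-b) (-c) (-d) := rfl

lemma mk_mul (a b c d a' b' c' d' : ℚ) :
    mk a b c d * mk a' b' c' d' =
      mk (a * a' + 2 * b * b' + c * c' + 2 * d * d') (a * b' + b * a' + c * d' + d * c')
        (a * c' + c * a' + c * c' + 2 * b * d' + 2 * d * b' + 2 * d * d')
        (a * d' + d * a' + b * c' + c * b' + c * d' + d * c') := by
  unfold mk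
  ext <;> simp only [QuadraticAlgebra.re_mul, QuadraticAlgebra.im_mul, QuadraticAlgebra.re_add,
    QuadraticAlgebra.im_add, one_mul] <;> ring

lemma mk_zero : mk 0 0 0 0 = 0 := rfl

lemma mk_one : mk 1 0 0 0 = 1 := rfl

lemma mk_rat (q : ℚ) : mk q 0 0 0 = (q : K) := rfl

lemma mk_intCast (n : ℤ) : ((n : ℤ) : K) = mk n 0 0 0 := by
  rw [mk_rat]; push_cast; rfl

lemma mk_natCast (n : ℕ) : ((n : ℕ) : K) = mk n 0 0 0 := by
  rw [mk_rat]; push_cast; rfl

lemma r_sq : r * r = 2 := by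
  have h : (2 : K) = mk 2 0 0 0 := by rw [mk_rat]; push_cast; rfl
  rw [h, r, mk_mul]; norm_num

lemma f_sq : f * f = f + 1 := by
  rw [f, mk_mul, ← mk_one, mk_add]; norm_num

lemma mk_eq (a b c d : ℚ) : mk a b c d = (a : K) + b * r + c * f + d * (r * f) := by
  rw [← mk_rat, ← mk_rat, ← mk_rat, ← mk_rat, r, f, mk_mul, mk_mul, mk_mul, mk_mul, mk_add, mk_add,
    mk_add, mk_inj]
  norm_num

/-- `x` has integer coordinates -/
def Int4 (x : K) : Prop := ∃ a b c d : ℤ, x = mk a b c d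

lemma Int4.add {x y : K} (hx : Int4 x) (hy : Int4 y) : Int4 (x + y) := by
  obtain ⟨a, b, c, d, rfl⟩ := hx
  obtain ⟨a', b', c', d', rfl⟩ := hy
  exact ⟨a + a', b + b', c + c', d + d', by push_cast; rw [mk_add]⟩

lemma Int4.neg {x : K} (hx : Int4 x) : Int4 (-x) := by
  obtain ⟨a, b, c, d, rfl⟩ := hx
  exact ⟨-a, -b, -c, -d, by push_cast; rw [mk_neg]⟩

lemma Int4.sub {x y : K} (hx : Int4 x) (hy : Int4 y) : Int4 (x - y) := by
  rw [sub_eq_add_neg]; exact hx.add hy.neg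

lemma Int4.mul {x y : K} (hx : Int4 x) (hy : Int4 y) : Int4 (x * y) := by
  obtain ⟨a, b, c, d, rfl⟩ := hx
  obtain ⟨a', b', c', d', rfl⟩ := hy
  exact ⟨a * a' + 2 * b * b' + c * c' + 2 * d * d', a * b' + b * a' + c * d' + d * c',
    a * c' + c * a' + c * c' + 2 * b * d' + 2 * d * b' + 2 * d * d',
    a * d' + d * a' + b * c' + c * b' + c * d' + d * c', by push_cast; rw [mk_mul]⟩

lemma int4_intCast (n : ℤ) : Int4 (n : K) := ⟨n, 0, 0, 0, by rw [mk_intCast]; simp⟩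

lemma int4_natCast (n : ℕ) : Int4 (n : K) := by exact_mod_cast int4_intCast n

lemma int4_zero : Int4 0 := by exact_mod_cast int4_intCast 0

lemma int4_one : Int4 1 := by exact_mod_cast int4_intCast 1

lemma int4_ofNat (n : ℕ) [n.AtLeastTwo] : Int4 (OfNat.ofNat n : K) := int4_natCast n

lemma int4_r : Int4 r := ⟨0, 1, 0, 0, by simp [r]⟩

lemma int4_f : Int4 f := ⟨0, 0, 1, 0, by simp [f]⟩

lemma Int4.sum {ι : Type*} {s : Finset ι} {g : ι → K} (h : ∀ i ∈ s, Int4 (g i)) :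
    Int4 (∑ i ∈ s, g i) := by
  classical
  induction s using Finset.induction_on with
  | empty => simpa using int4_zero
  | insert a s ha ih =>
    rw [Finset.sum_insert ha]
    exact (h a (Finset.mem_insert_self _ _)).add (ih fun i hi => h i (Finset.mem_insert_of_mem hi))

/-- the coefficient of `√2 f`: the trace of `x / (2 √2 √5)` -/
def L3 (x : K) : ℚ := x.im.im

lemma L3_mk (a b c d : ℚ) : L3 (mk a b c d) = d := rfl

lemma L3_add (x y : K) : L3 (x + y) = L3 x + L3 y := rfl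

/-- the unit `f (1 + √2)`, with the signs of `√2 √5` -/
def u0 : K := mk 0 0 1 1

lemma int4_u0 : Int4 u0 := ⟨0, 0, 1, 1, by simp [u0]⟩

lemma u0_eq : u0 = f * (1 + r) := by
  rw [u0, f, r, ← mk_one, mk_add, mk_mul, mk_inj]; norm_num

lemma L3_u0 (x : K) (hx : Int4 x) : ∃ n : ℤ, L3 (u0 * x) = n := by
  obtain ⟨a, b, c, d, h⟩ := int4_u0.mul hx
  exact ⟨d, by rw [h, L3_mk]⟩

/-- duality -/
lemma int4_of_L3 (y : K) (h : ∀ a : K, Int4 a → ∃ n : ℤ, L3 (u0 * (a * y)) = n) : Int4 y := by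
  obtain ⟨a, b, c, d, rfl⟩ := exists_mk y
  -- L3 (u0 * mk a b c d) = a + b + c + d ... in terms of the coordinates
  obtain ⟨n1, h1⟩ := h 1 int4_one
  obtain ⟨n2, h2⟩ := h r int4_r
  obtain ⟨n3, h3⟩ := h f int4_f
  obtain ⟨n4, h4⟩ := h (r * f) (int4_r.mul int4_f)
  rw [← mk_one, u0, mk_mul, mk_mul, L3_mk] at h1
  rw [r, u0, mk_mul, mk_mul, L3_mk] at h2
  rw [f, u0, mk_mul, mk_mul, L3_mk] at h3
  rw [r, f, u0, mk_mul, mk_mul, mk_mul, L3_mk] at h4
  ring_nf at h1 h2 h3 h4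
  have hd : d = ((n4 - n2 - (n3 - n1) : ℤ) : ℚ) := by push_cast; linarith
  have hc : c = ((2 * (n3 - n1) - (n4 - n2) : ℤ) : ℚ) := by push_cast; linarith
  have hb : b = ((n2 - n1 - (n4 - n2 - (n3 - n1)) : ℤ) : ℚ) := by push_cast; linarith
  have ha : a = ((n1 - (n2 - n1 - (n4 - n2 - (n3 - n1))) - (2 * (n3 - n1) - (n4 - n2)) -
    (n4 - n2 - (n3 - n1)) : ℤ) : ℚ) := by push_cast; linarith
  exact ⟨_, _, _, _, mk_inj.2 ⟨ha, hb, hc, hd⟩⟩

/-- the embedding with `√2 ↦ s`, `f ↦ t` -/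
noncomputable def emb (s t : ℝ) (hs : s * s = 2) (ht : t * t = t + 1) : K →+* ℝ where
  toFun x := (x.re.re : ℝ) + x.re.im * s + (x.im.re + x.im.im * s) * t
  map_one' := by
    rw [← mk_one]; simp [mk]
  map_zero' := by
    rw [← mk_zero]; simp [mk]
  map_add' x y := by
    obtain ⟨a, b, c, d, rfl⟩ := exists_mk x
    obtain ⟨a', b', c', d', rfl⟩ := exists_mk y
    rw [mk_add]; simp only [mk]; push_cast; ring
  map_mul' x y := by
    obtain ⟨a, b, c, d, rfl⟩ := exists_mk x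
    obtain ⟨a', b', c', d', rfl⟩ := exists_mk y
    rw [mk_mul]
    simp only [mk]
    push_cast
    linear_combination ((-b : ℝ) * b' - (b * d' + d * b') * t - d * d' * (t + 1)) * hs +
      (-(c * c' : ℝ) - (c * d' + d * c') * s - d * d' * s ^ 2) * ht

lemma emb_mk (s t : ℝ) (hs : s * s = 2) (ht : t * t = t + 1) (a b c d : ℚ) :
    emb s t hs ht (mk a b c d) = a + b * s + (c + d * s) * t := rfl

lemma ring_hom_eq (φ : K →+* ℝ) (a b c d : ℚ) :
    φ (mk a b c d) = a + b * φ r + (c + d * φ r) * φ f := by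
  rw [mk_eq]
  simp only [map_add, map_mul, map_ratCast]
  ring

lemma sq2 : √2 * √2 = (2 : ℝ) := Real.mul_self_sqrt (by norm_num)

lemma sq5 : √5 * √5 = (5 : ℝ) := Real.mul_self_sqrt (by norm_num)

/-- the four real embeddings -/
noncomputable def em : Fin 4 → (K →+* ℝ)
  | 0 => emb (√2) ((1 + √5) / 2) sq2 (by linear_combination (1 / 4) * sq5)
  | 1 => emb (√2) ((1 - √5) / 2) sq2 (by linear_combination (1 / 4) * sq5)
  | 2 => emb (-√2) ((1 + √5) / 2) (by linear_combination sq2) (by linear_combination (1 / 4) * sq5)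
  | 3 => emb (-√2) ((1 - √5) / 2) (by linear_combination sq2) (by linear_combination (1 / 4) * sq5)

lemma em0 (a b c d : ℚ) : em 0 (mk a b c d) = a + b * √2 + (c + d * √2) * ((1 + √5) / 2) := rfl

lemma em1 (a b c d : ℚ) : em 1 (mk a b c d) = a + b * √2 + (c + d * √2) * ((1 - √5) / 2) := rfl

lemma em2 (a b c d : ℚ) : em 2 (mk a b c d) = a + b * (-√2) + (c + d * (-√2)) * ((1 + √5) / 2) := rfl

lemma em3 (a b c d : ℚ) : em 3 (mk a b c d) = a + b * (-√2) + (c + d * (-√2)) * ((1 - √5) / 2) := rfl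

/-- every real embedding is one of the four -/
lemma exists_em (φ : K →+* ℝ) : ∃ k, φ = em k := by
  have h2 : φ r * φ r = 2 := by rw [← map_mul, r_sq, map_ofNat]
  have h5 : φ f * φ f = φ f + 1 := by rw [← map_mul, f_sq, map_add, map_one]
  have h2' : φ r = √2 ∨ φ r = -√2 := by
    have : (φ r - √2) * (φ r + √2) = 0 := by linear_combination h2 - sq2
    rcases mul_eq_zero.1 this with h | h
    · left; linarith
    · right; linarith
  have h5' : φ f = (1 + √5) / 2 ∨ φ f = (1 - √5) / 2 := by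
    have : (φ f - (1 + √5) / 2) * (φ f - (1 - √5) / 2) = 0 := by
      linear_combination h5 - (1 / 4) * sq5
    rcases mul_eq_zero.1 this with h | h
    · left; linarith
    · right; linarith
  have key : ∀ k, em k r = φ r → em k f = φ f → φ = em k := by
    intro k h h'
    refine RingHom.ext fun x => ?_
    obtain ⟨a, b, c, d, rfl⟩ := exists_mk x
    rw [ring_hom_eq, ring_hom_eq (em k), h, h']
  rcases h2' with h2' | h2' <;> rcases h5' with h5' | h5'
  · exact ⟨0, key 0 (by rw [r, em0, ← r, h2']; simp) (by rw [f, em0, ← f, h5']; simp)⟩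
  · exact ⟨1, key 1 (by rw [r, em1, ← r, h2']; simp) (by rw [f, em1, ← f, h5']; simp)⟩
  · exact ⟨2, key 2 (by rw [r, em2, ← r, h2']; simp) (by rw [f, em2, ← f, h5']; simp)⟩
  · exact ⟨3, key 3 (by rw [r, em3, ← r, h2']; simp) (by rw [f, em3, ← f, h5']; simp)⟩

/-- the different times a unit: `2 √2 √5 / u0 = δ⁻¹`; here `δ = u0 / (2 √2 √5)` -/
noncomputable def δ : K := u0 / (2 * r * (2 * f - 1))

lemma den_eq : 2 * r * (2 * f - 1) = mk 0 (-2) 0 4 := by
  have h : (2 : K) = mk 2 0 0 0 := by rw [mk_rat]; push_cast; rfl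
  rw [h, r, f, ← mk_one, mk_mul, mk_mul, mk_sub, mk_mul, mk_inj]; norm_num

lemma den_ne : (2 * r * (2 * f - 1) : K) ≠ 0 := by
  rw [den_eq, ← mk_zero, Ne, mk_inj]; norm_num

lemma sum_den (x : K) : ∑ k, em k (x / (2 * r * (2 * f - 1))) = (L3 x : ℝ) := by
  obtain ⟨y, rfl⟩ : ∃ y, x = y * (2 * r * (2 * f - 1)) := ⟨x / (2 * r * (2 * f - 1)), by
    rw [div_mul_cancel₀ _ den_ne]⟩
  rw [mul_div_cancel_right₀ _ den_ne, den_eq]
  obtain ⟨a, b, c, d, rfl⟩ := exists_mk y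
  rw [mk_mul, L3_mk, Fin.sum_univ_four, em0, em1, em2, em3]
  push_cast
  ring

/-- the trace form -/
lemma sum_em (x : K) : ∑ k, em k (δ * x) = (L3 (u0 * x) : ℝ) := by
  rw [← sum_den]
  refine Finset.sum_congr rfl fun k _ => ?_
  congr 1
  rw [δ]; ring

lemma sqrt2_pos : (1.41 : ℝ) < √2 := by
  rw [show (1.41 : ℝ) = √(1.41 ^ 2) by rw [Real.sqrt_sq (by norm_num)]]
  exact Real.sqrt_lt_sqrt (by norm_num) (by norm_num)

lemma sqrt2_lt : √2 < (1.42 : ℝ) := by
  rw [show (1.42 : ℝ) = √(1.42 ^ 2) by rw [Real.sqrt_sq (by norm_num)]]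
  exact Real.sqrt_lt_sqrt (by norm_num) (by norm_num)

lemma sqrt5_pos : (2.23 : ℝ) < √5 := by
  rw [show (2.23 : ℝ) = √(2.23 ^ 2) by rw [Real.sqrt_sq (by norm_num)]]
  exact Real.sqrt_lt_sqrt (by norm_num) (by norm_num)

lemma sqrt5_lt : √5 < (2.24 : ℝ) := by
  rw [show (2.24 : ℝ) = √(2.24 ^ 2) by rw [Real.sqrt_sq (by norm_num)]]
  exact Real.sqrt_lt_sqrt (by norm_num) (by norm_num)

lemma em_u0_den (k : Fin 4) : 0 < em k u0 * em k (2 * r * (2 * f - 1)) := by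
  have h1 := sqrt2_pos
  have h2 := sqrt5_pos
  have h3 := sqrt2_lt
  have h4 := sqrt5_lt
  rw [den_eq, u0]
  fin_cases k
  · change 0 < em 0 _ * em 0 _
    rw [em0, em0]
    push_cast
    have : (0 + 0 * √2 + (1 + 1 * √2) * ((1 + √5) / 2)) * (0 + -2 * √2 + (0 + 4 * √2) * ((1 + √5) / 2)) =
      (1 + √2) * (1 + √5) * √2 * √5 := by ring
    rw [this]; positivity
  · change 0 < em 1 _ * em 1 _
    rw [em1, em1]
    push_cast
    have : (0 + 0 * √2 + (1 + 1 * √2) * ((1 - √5) / 2)) * (0 + -2 * √2 + (0 + 4 * √2) * ((1 - √5) / 2)) =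
      (1 + √2) * (√5 - 1) * √2 * √5 := by ring
    rw [this]
    have : 0 < √5 - 1 := by linarith
    positivity
  · change 0 < em 2 _ * em 2 _
    rw [em2, em2]
    push_cast
    have : (0 + 0 * -√2 + (1 + 1 * -√2) * ((1 + √5) / 2)) * (0 + -2 * -√2 + (0 + 4 * -√2) * ((1 + √5) / 2)) =
      (√2 - 1) * (1 + √5) * √2 * √5 := by ring
    rw [this]
    have : 0 < √2 - 1 := by linarith
    positivity
  · change 0 < em 3 _ * em 3 _
    rw [em3, em3]
    push_cast
    have : (0 + 0 * -√2 + (1 + 1 * -√2) * ((1 - √5) / 2)) * (0 + -2 * -√2 + (0 + 4 * -√2) * ((1 - √5) / 2)) =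
      (√2 - 1) * (√5 - 1) * √2 * √5 := by ring
    rw [this]
    have : 0 < √2 - 1 := by linarith
    have : 0 < √5 - 1 := by linarith
    positivity

lemma em_δ_pos (k : Fin 4) : 0 < em k δ := by
  rw [δ, map_div₀]
  rcases pos_and_pos_or_neg_and_neg_of_mul_pos (em_u0_den k) with ⟨h1, h2⟩ | ⟨h1, h2⟩
  · exact div_pos h1 h2
  · exact div_pos_of_neg_of_neg h1 h2

end Pool.Agent.U168.UQ
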