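import Pool.Agent.U168.UQ.Base

/-!
# Project UQ: statements of the parts

S18713: the form `x² + y² + z² + xy + √2 xz` over the integers of `K = ℚ(√2, √5)` is universal.
-/

set_option autoImplicit false

namespace Pool.Agent.U168.UQ

open NumberField

/-- HN: totally positive numbers of a number field containing `√2` and `√5` are sums of three squares
(Hasse norm theorem `CohNT.HNT` of `Pool.Agent.H604C.P_HNT` over `E = K(√-α)` with `a = -1`, `b = -7`). -/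
def S_HN : Prop := ∀ (K : Type) [Field K] [NumberField K] (r s : K), r ^ 2 = 2 → s ^ 2 = 5 →
  Nonempty (K →+* ℝ) → ∀ α : K, (∀ φ : K →+* ℝ, 0 < φ α) → ∃ x y z : K, α = x ^ 2 + y ^ 2 + z ^ 2

/-- EV: Blichfeldt's bound in dimension 16. -/
def S_EV : Prop := ∀ A : Matrix (Fin 16) (Fin 16) ℝ, |A.det| = 1 →
  ∃ x : Fin 16 → ℤ, x ≠ 0 ∧ ∑ i, (∑ j, A i j * (x j : ℝ)) ^ 2 < 4

/-- LT: a self-dual integral lattice of rank 16 has a nonzero vector of norm less than four. -/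
def S_LT : Prop := ∀ (V : Type) [AddCommGroup V] [Module ℚ V], Module.finrank ℚ V = 16 →
  ∀ (J : Submodule ℤ V), J.FG → Submodule.span ℚ (J : Set V) = ⊤ →
  ∀ (ι : V →+ (Fin 16 → ℝ)) (g : V → V → ℚ),
    (∀ x y, ((g x y : ℚ) : ℝ) = ∑ i, ι x i * ι y i) → (∀ x, x ≠ 0 → 0 < g x x) →
    (∀ x ∈ J, ∀ y ∈ J, ∃ n : ℤ, g x y = n) →
    (∀ y, (∀ x ∈ J, ∃ n : ℤ, g x y = n) → y ∈ J) →
    ∃ x ∈ J, x ≠ 0 ∧ g x x < 4

/-- IN: the integers of `K`. -/
def S_IN : Prop := ∀ x : K, IsIntegral ℤ x ↔ Int4 x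

/-- PI: the narrow class number of `K` is one (in the form: finitely generated fractional ideals have
totally positive generators). -/
def S_PI : Prop := ∀ (m : ℕ) (g : Fin m → K), (∃ i, g i ≠ 0) →
  ∃ n : K, (∀ φ : K →+* ℝ, 0 < φ n) ∧ (∀ i, ∃ c : K, Int4 c ∧ g i = c * n) ∧
    ∃ c : Fin m → K, (∀ i, Int4 (c i)) ∧ n = ∑ i, c i * g i

/-- MM: the totally positive integers `m` with `Tr (δ m) = 1`. -/
def S_MM : Prop := ∀ m : K, Int4 m → (∀ φ : K →+* ℝ, 0 < φ m) → L3 (u0 * m) = 1 →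
  ∃ v v' : K, Int4 v ∧ Int4 v' ∧ v * v' = 1 ∧ (m = v ∨ m = r * v)

/-- GA: the field. -/
def S_GA : Prop := ∃ _ : NumberField K, Module.finrank ℚ K = 4 ∧ IsGalois ℚ K ∧
  (∀ σ : K ≃ₐ[ℚ] K, σ * σ = 1) ∧ NumberField.IsTotallyReal K

/-- the ternary form of the trace zero part of the icosian order -/
def Q (s t u : K) : K := 3 * s ^ 2 + t ^ 2 + u ^ 2 + 2 * s * t + 2 * f * s * u + t * u

/-- LO: from the icosian lattice to three squares. -/
def S_LO : Prop := ∀ (α s t u : K), Int4 α → Int4 s → Int4 t → Int4 u → (Q s t u = α ∨ Q s t u = 2 * α) →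
  ∃ B C D : K, Int4 B ∧ Int4 C ∧ Int4 D ∧ 2 * α = B ^ 2 + C ^ 2 + D ^ 2

/-- QQ: the quaternion part: a rational pure quaternion of integral norm gives an integral vector. -/
def S_QQ : Prop := ∀ (α x y z : K), Int4 α → (∀ φ : K →+* ℝ, 0 < φ α) → α = x ^ 2 + y ^ 2 + z ^ 2 →
  ∃ s t u : K, Int4 s ∧ Int4 t ∧ Int4 u ∧ (Q s t u = α ∨ Q s t u = 2 * α)

end Pool.Agent.U168.UQ
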